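import Pool.Agent.V11269.TLC2

/-!
# MP_26f5de_nt

Counterexamples to the `t`-adic Littlewood conjecture with growth function `log^(1+λ)`, `λ < 1`,
can form a set of positive Hausdorff dimension.
-/

namespace Pool.Agent.Results.MP_26f5de_nt.PositiveDimension

open Pool.Agent.V11269.TLCDefs Pool.Agent.V11269.TLC

theorem general {F : Type*} [Field F] [Fintype F] (lam : ℝ) (hq : 3 ≤ Fintype.card F)
    (hlam : (Fintype.card F : ℝ) < ((Fintype.card F : ℝ) - 1) ^ (1 + lam)) :
    ENNReal.ofReal (Real.log 2 / Real.log (Fintype.card F)) ≤ dimH (M F lam) := by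
  classical
  have hq' : (3 : ℝ) ≤ Fintype.card F := by exact_mod_cast hq
  have h1 : 0 < 1 + lam := by
    by_contra h
    have h2 : ((Fintype.card F : ℝ) - 1) ^ (1 + lam) ≤ 1 :=
      Real.rpow_le_one_of_one_le_of_nonpos (by linarith) (not_lt.1 h)
    linarith
  have h2 : (Fintype.card F : ℝ) ^ (1 / (1 + lam)) < (Fintype.card F : ℝ) - 1 := by
    have h3 := Real.rpow_lt_rpow (by linarith) hlam (show 0 < 1 / (1 + lam) by positivity)
    rwa [← Real.rpow_mul (by linarith), mul_one_div_cancel h1.ne', Real.rpow_one] at h3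
  obtain ⟨β, hβ1, hβ2⟩ := exists_between h2
  have hβ0 : 1 ≤ β := by
    have : (1 : ℝ) ≤ (Fintype.card F : ℝ) ^ (1 / (1 + lam)) :=
      Real.one_le_rpow (by linarith) (by positivity)
    linarith
  have htwo := fun (s : ℕ → F) (K : ℕ) => two_digits hβ0 hq s K
  choose a a' hne ha ha' using htwo
  set pick : (ℕ → F) → ℕ → Bool → F := fun s K b => if b then a s K else a' s K with hpick
  set ρ : ℝ := β / (Fintype.card F - 1) with hρ
  have hρ0 : 0 ≤ ρ := by
    have : (0 : ℝ) < Fintype.card F - 1 := by linarith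
    positivity
  have hρ1 : ρ < 1 := by
    rw [hρ, div_lt_one (by linarith)]; exact hβ2
  have hpick1 : ∀ s K b, Φ β (Function.update s K (pick s K b)) (K + 1) ≤
      K + 2 + ρ * Φ β s K := by
    intro s K b
    cases b
    · simpa [hpick] using ha' s K
    · simpa [hpick] using ha s K
  have hpick2 : ∀ s K, pick s K true ≠ pick s K false := by
    intro s K
    simpa [hpick] using hne s K
  have hsub : treeSet pick ⊆ M F lam := by
    rintro x ⟨ε, rfl⟩
    apply mem_M (lim pick ε) h1 (by omega) hβ1 hβ0 (B := 1 / (1 - ρ))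
    intro K
    exact Φ_lim hβ0 hρ0 hρ1 (one_div_mul_cancel (by linarith)) pick hpick1 ε K
  exact (dim_tree (by omega) pick hpick2).trans (dimH_mono hsub)

theorem result :
    (∀ (F : Type) [Field F] [Fintype F] (lam : ℝ), 3 ≤ Fintype.card F →
      (Fintype.card F : ℝ) < ((Fintype.card F : ℝ) - 1) ^ (1 + lam) →
      ENNReal.ofReal (Real.log 2 / Real.log (Fintype.card F)) ≤ dimH (M F lam)) ∧
    ∃ (F : Type) (_ : Field F) (_ : Fintype F) (lam : ℝ), lam < 1 ∧ 0 < dimH (M F lam) := by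
  refine ⟨fun F _ _ lam hq hlam => general lam hq hlam, ?_⟩
  have : Fact (Nat.Prime 3) := ⟨by norm_num⟩
  refine ⟨ZMod 3, inferInstance, inferInstance, 3 / 5, by norm_num, ?_⟩
  have hcard : Fintype.card (ZMod 3) = 3 := ZMod.card 3
  have h1 := general (F := ZMod 3) (3 / 5) (by rw [hcard]) (by
    rw [hcard]
    have h2 : (3 : ℝ) ^ (5 : ℕ) < 2 ^ (8 : ℕ) := by norm_num
    have h3 : ((3 : ℝ) ^ (5 : ℕ)) ^ (1 / 5 : ℝ) < (2 ^ (8 : ℕ)) ^ (1 / 5 : ℝ) :=
      Real.rpow_lt_rpow (by norm_num) h2 (by norm_num)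
    rw [← Real.rpow_natCast, ← Real.rpow_natCast, ← Real.rpow_mul (by norm_num),
      ← Real.rpow_mul (by norm_num)] at h3
    norm_num at h3 ⊢
    exact h3)
  refine lt_of_lt_of_le ?_ h1
  rw [ENNReal.ofReal_pos, hcard]
  have h4 : 0 < Real.log 2 := Real.log_pos (by norm_num)
  have h5 : 0 < Real.log ((3 : ℕ) : ℝ) := Real.log_pos (by norm_num)
  positivity

end Pool.Agent.Results.MP_26f5de_nt.PositiveDimension
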